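import Mathlib

/-! `fun_prop` support for `Primrec`: closure lemmas in compositional form. -/

set_option autoImplicit false

namespace Pool.Agent.Lib.PrimrecProp

attribute [fun_prop] Primrec

variable {α β γ σ : Type} [Primcodable α] [Primcodable β] [Primcodable γ] [Primcodable σ]

@[fun_prop] theorem p_id : Primrec (fun a : α => a) := Primrec.id

@[fun_prop] theorem p_const (x : σ) : Primrec (fun _ : α => x) := Primrec.const x

@[fun_prop] theorem p_comp {f : β → σ} {g : α → β} (hf : Primrec f) (hg : Primrec g) :
    Primrec (fun a => f (g a)) := hf.comp hg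

@[fun_prop] theorem p_fst {f : α → β × γ} (hf : Primrec f) : Primrec (fun a => (f a).1) :=
  Primrec.fst.comp hf

@[fun_prop] theorem p_snd {f : α → β × γ} (hf : Primrec f) : Primrec (fun a => (f a).2) :=
  Primrec.snd.comp hf

@[fun_prop] theorem p_pair {f : α → β} {g : α → γ} (hf : Primrec f) (hg : Primrec g) :
    Primrec (fun a => (f a, g a)) := hf.pair hg

@[fun_prop] theorem p_and {f g : α → Bool} (hf : Primrec f) (hg : Primrec g) :
    Primrec (fun a => (f a && g a)) := Primrec.and.comp hf hg

@[fun_prop] theorem p_or {f g : α → Bool} (hf : Primrec f) (hg : Primrec g) :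
    Primrec (fun a => (f a || g a)) := Primrec.or.comp hf hg

@[fun_prop] theorem p_not {f : α → Bool} (hf : Primrec f) :
    Primrec (fun a => (!(f a))) := Primrec.not.comp hf

@[fun_prop] theorem p_cond {c : α → Bool} {f g : α → σ} (hc : Primrec c) (hf : Primrec f)
    (hg : Primrec g) : Primrec (fun a => cond (c a) (f a) (g a)) := Primrec.cond hc hf hg

/-- Boolean equality test built from `DecidableEq`. -/
def eqb [DecidableEq β] (x y : β) : Bool := decide (x = y)

@[simp] theorem eqb_iff {β : Type} [DecidableEq β] (x y : β) : eqb x y = true ↔ x = y := by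
  simp [eqb]

@[fun_prop] theorem p_eqb [DecidableEq β] {f g : α → β} (hf : Primrec f) (hg : Primrec g) :
    Primrec (fun a => eqb (f a) (g a)) := (Primrec.eq.comp hf hg).decide

/-- Boolean order test on naturals. -/
def leb (x y : ℕ) : Bool := decide (x ≤ y)

@[simp] theorem leb_iff (x y : ℕ) : leb x y = true ↔ x ≤ y := by simp [leb]

@[fun_prop] theorem p_leb {f g : α → ℕ} (hf : Primrec f) (hg : Primrec g) :
    Primrec (fun a => leb (f a) (g a)) := (Primrec.nat_le.comp hf hg).decide

@[fun_prop] theorem p_add {f g : α → ℕ} (hf : Primrec f) (hg : Primrec g) :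
    Primrec (fun a => f a + g a) := Primrec.nat_add.comp hf hg

@[fun_prop] theorem p_sub {f g : α → ℕ} (hf : Primrec f) (hg : Primrec g) :
    Primrec (fun a => f a - g a) := Primrec.nat_sub.comp hf hg

@[fun_prop] theorem p_mul {f g : α → ℕ} (hf : Primrec f) (hg : Primrec g) :
    Primrec (fun a => f a * g a) := Primrec.nat_mul.comp hf hg

@[fun_prop] theorem p_some {f : α → β} (hf : Primrec f) : Primrec (fun a => some (f a)) :=
  Primrec.option_some.comp hf

@[fun_prop] theorem p_cons {f : α → β} {g : α → List β} (hf : Primrec f) (hg : Primrec g) :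
    Primrec (fun a => f a :: g a) := Primrec.list_cons.comp hf hg

@[fun_prop] theorem p_append {f g : α → List β} (hf : Primrec f) (hg : Primrec g) :
    Primrec (fun a => f a ++ g a) := Primrec.list_append.comp hf hg

@[fun_prop] theorem p_length {f : α → List β} (hf : Primrec f) :
    Primrec (fun a => (f a).length) := Primrec.list_length.comp hf

@[fun_prop] theorem p_reverse {f : α → List β} (hf : Primrec f) :
    Primrec (fun a => (f a).reverse) := Primrec.list_reverse.comp hf

@[fun_prop] theorem p_tail {f : α → List β} (hf : Primrec f) :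
    Primrec (fun a => (f a).tail) := Primrec.list_tail.comp hf

@[fun_prop] theorem p_head? {f : α → List β} (hf : Primrec f) :
    Primrec (fun a => (f a).head?) := Primrec.list_head?.comp hf

@[fun_prop] theorem p_range {f : α → ℕ} (hf : Primrec f) :
    Primrec (fun a => List.range (f a)) := Primrec.list_range.comp hf

@[fun_prop] theorem p_take {f : α → ℕ} {g : α → List β} (hf : Primrec f) (hg : Primrec g) :
    Primrec (fun a => List.take (f a) (g a)) := Primrec.list_take.comp hf hg

@[fun_prop] theorem p_drop {f : α → ℕ} {g : α → List β} (hf : Primrec f) (hg : Primrec g) :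
    Primrec (fun a => List.drop (f a) (g a)) := Primrec.list_drop.comp hf hg

@[fun_prop] theorem p_getElem? {f : α → List β} {g : α → ℕ} (hf : Primrec f) (hg : Primrec g) :
    Primrec (fun a => (f a)[g a]?) := Primrec.list_getElem?.comp hf hg

@[fun_prop] theorem p_getD (d : β) {f : α → List β} {g : α → ℕ} (hf : Primrec f)
    (hg : Primrec g) : Primrec (fun a => List.getD (f a) (g a) d) :=
  (Primrec.list_getD d).comp hf hg

@[fun_prop] theorem p_map {f : α → List β} {g : α → β → σ} (hf : Primrec f)
    (hg : Primrec (fun x : α × β => g x.1 x.2)) : Primrec (fun a => (f a).map (g a)) :=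
  Primrec.list_map hf hg

@[fun_prop] theorem p_flatMap {f : α → List β} {g : α → β → List σ} (hf : Primrec f)
    (hg : Primrec (fun x : α × β => g x.1 x.2)) : Primrec (fun a => (f a).flatMap (g a)) :=
  Primrec.list_flatMap hf hg

@[fun_prop] theorem p_foldr {f : α → List β} {g : α → σ} {h : α → β → σ → σ} (hf : Primrec f)
    (hg : Primrec g) (hh : Primrec (fun x : α × β × σ => h x.1 x.2.1 x.2.2)) :
    Primrec (fun a => (f a).foldr (h a) (g a)) :=
  Primrec.list_foldr (h := fun a x => h a x.1 x.2) hf hg hh

@[fun_prop] theorem p_foldl {f : α → List β} {g : α → σ} {h : α → σ → β → σ} (hf : Primrec f)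
    (hg : Primrec g) (hh : Primrec (fun x : α × σ × β => h x.1 x.2.1 x.2.2)) :
    Primrec (fun a => (f a).foldl (h a) (g a)) :=
  Primrec.list_foldl (h := fun a x => h a x.1 x.2) hf hg hh

@[fun_prop] theorem p_all {f : α → List β} {g : α → β → Bool} (hf : Primrec f)
    (hg : Primrec (fun x : α × β => g x.1 x.2)) : Primrec (fun a => (f a).all (g a)) := by
  have : Primrec (fun a => (f a).foldr (fun b s => (g a b && s)) true) :=
    p_foldr (h := fun a b s => (g a b && s)) hf (Primrec.const true)
      (p_and (hg.comp (g := fun x : α × β × Bool => (x.1, x.2.1)) (by fun_prop)) (by fun_prop))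
  refine this.of_eq fun a => ?_
  induction f a with
  | nil => rfl
  | cons b l ih => simp [List.all_cons, ih]

@[fun_prop] theorem p_any {f : α → List β} {g : α → β → Bool} (hf : Primrec f)
    (hg : Primrec (fun x : α × β => g x.1 x.2)) : Primrec (fun a => (f a).any (g a)) := by
  have : Primrec (fun a => (f a).foldr (fun b s => (g a b || s)) false) :=
    p_foldr (h := fun a b s => (g a b || s)) hf (Primrec.const false)
      (p_or (hg.comp (g := fun x : α × β × Bool => (x.1, x.2.1)) (by fun_prop)) (by fun_prop))
  refine this.of_eq fun a => ?_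
  induction f a with
  | nil => rfl
  | cons b l ih => simp [List.any_cons, ih]

@[fun_prop] theorem p_filter {f : α → List β} {g : α → β → Bool} (hf : Primrec f)
    (hg : Primrec (fun x : α × β => g x.1 x.2)) : Primrec (fun a => (f a).filter (g a)) := by
  have : Primrec (fun a => (f a).foldr (fun b s => cond (g a b) (b :: s) s) []) :=
    p_foldr (h := fun a b s => cond (g a b) (b :: s) s) hf (Primrec.const [])
      (p_cond (hg.comp (g := fun x : α × β × List β => (x.1, x.2.1)) (by fun_prop))
        (by fun_prop) (by fun_prop))
  refine this.of_eq fun a => ?_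
  induction f a with
  | nil => rfl
  | cons b l ih => cases h : g a b <;> simp [ih, h]

/-- Boolean membership test. -/
def memb [DecidableEq β] (x : β) (l : List β) : Bool := l.any (fun y => eqb x y)

@[simp] theorem memb_iff {β : Type} [DecidableEq β] (x : β) (l : List β) :
    memb x l = true ↔ x ∈ l := by
  simp [memb]

@[fun_prop] theorem p_memb [DecidableEq β] {f : α → β} {g : α → List β} (hf : Primrec f)
    (hg : Primrec g) : Primrec (fun a => memb (f a) (g a)) := by
  unfold memb; fun_prop

/-- All sublists of a list. -/
def subl {β : Type} (l : List β) : List (List β) :=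
  l.foldr (fun x acc => acc ++ acc.map (fun s => x :: s)) [[]]

@[fun_prop] theorem p_subl {f : α → List β} (hf : Primrec f) : Primrec (fun a => subl (f a)) := by
  unfold subl; fun_prop

theorem filter_mem_subl {β : Type} (p : β → Bool) (l : List β) : l.filter p ∈ subl l := by
  induction l with
  | nil => simp [subl]
  | cons x l ih =>
    have : subl (x :: l) = subl l ++ (subl l).map (fun s => x :: s) := rfl
    rw [this, List.filter_cons]
    split_ifs
    · exact List.mem_append_right _ (List.mem_map.2 ⟨_, ih, rfl⟩)
    · exact List.mem_append_left _ ih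

theorem subset_of_mem_subl {β : Type} {l s : List β} (h : s ∈ subl l) : ∀ x ∈ s, x ∈ l := by
  induction l generalizing s with
  | nil =>
    have : s = [] := by simpa [subl] using h
    simp [this]
  | cons y l ih =>
    have e : subl (y :: l) = subl l ++ (subl l).map (fun s => y :: s) := rfl
    rw [e, List.mem_append, List.mem_map] at h
    rcases h with h | ⟨t, ht, rfl⟩
    · exact fun x hx => List.mem_cons_of_mem _ (ih h x hx)
    · intro x hx
      rcases List.mem_cons.1 hx with rfl | hx
      · exact List.mem_cons_self
      · exact List.mem_cons_of_mem _ (ih ht x hx)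

/-- All pairs from two lists. -/
def pairs {β γ : Type} (l : List β) (m : List γ) : List (β × γ) :=
  l.flatMap (fun x => m.map (fun y => (x, y)))

@[simp] theorem mem_pairs {β γ : Type} {l : List β} {m : List γ} {x : β × γ} :
    x ∈ pairs l m ↔ x.1 ∈ l ∧ x.2 ∈ m := by
  obtain ⟨a, b⟩ := x
  simp [pairs]

@[fun_prop] theorem p_pairs {f : α → List β} {g : α → List γ} (hf : Primrec f) (hg : Primrec g) :
    Primrec (fun a => pairs (f a) (g a)) := by
  unfold pairs; fun_prop

theorem computablePred_of_bool {p : α → Prop} {f : α → Bool} (hf : Primrec f)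
    (h : ∀ a, p a ↔ f a = true) : ComputablePred p := by
  classical
  refine ⟨inferInstance, (hf.of_eq fun a => ?_).to_comp⟩
  by_cases hp : p a
  · simp [hp, (h a).1 hp]
  · have : ¬ f a = true := fun h' => hp ((h a).2 h')
    simp [hp, this]

end Pool.Agent.Lib.PrimrecProp
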